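import Pool.Agent.H17.SAlpha

set_option autoImplicit false

namespace Pool.Agent.Results.MP_919dc2_an.Periods

open Set Filter Topology Function Pool.Agent.H17.SAlpha

/-- The special alpha-limit set of x: limits of subsequences of backward orbit branches of x. -/
def sAlpha (f : unitInterval → unitInterval) (x : unitInterval) : Set unitInterval :=
  {y | ∃ z : ℕ → unitInterval, z 0 = x ∧ (∀ k, f (z (k + 1)) = z k) ∧
    ∃ φ : ℕ → ℕ, StrictMono φ ∧ Tendsto (z ∘ φ) atTop (𝓝 y)}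

/-- The set A contains a periodic orbit of least period n. -/
def HasOrbit (f : unitInterval → unitInterval) (A : Set unitInterval) (n : ℕ) : Prop :=
  ∃ p, f^[n] p = p ∧ (∀ m, 1 ≤ m → m < n → f^[m] p ≠ p) ∧ ∀ i < n, f^[i] p ∈ A

theorem sAlpha_eq (f : unitInterval → unitInterval) (x : unitInterval) : sAlpha f x = sa f x := by
  ext y
  refine exists_congr fun z => and_congr_right fun _ => and_congr_right fun _ => ?_
  rw [← mapClusterPt_iff_frequently]
  exact ⟨fun ⟨φ, h1, h2⟩ => h2.mapClusterPt.of_comp h1.tendsto_atTop, fun h => h.tendsto_subseq⟩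

theorem result (f : unitInterval → unitInterval) (hf : Continuous f) (x : unitInterval)
    (h3 : HasOrbit f (sAlpha f x) 3) (n : ℕ) (hn : 1 ≤ n) :
    HasOrbit f (sAlpha f x) n ∨ HasOrbit f (sAlpha f x) (2 * n) := by
  by_cases hn3 : n = 3
  · exact .inl (hn3 ▸ h3)
  rw [sAlpha_eq] at h3 ⊢
  suffices H : ∃ w, (minimalPeriod f w = n ∨ minimalPeriod f w = 2 * n) ∧ ∀ i, f^[i] w ∈ sa f x by
    obtain ⟨w, h1, h2⟩ := H
    have K : ∀ k, minimalPeriod f w = k → HasOrbit f (sa f x) k := by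
      rintro k rfl
      exact ⟨w, isPeriodicPt_minimalPeriod f w, fun m h1 h2 h =>
        absurd (IsPeriodicPt.minimalPeriod_le h1 h) (not_le.2 h2), fun i _ => h2 i⟩
    exact h1.imp (K _) (K _)
  obtain ⟨p, e3, ne, hA⟩ := h3
  have e3 : f (f (f p)) = p := e3
  have n1 : f p ≠ p := ne 1 le_rfl (by norm_num)
  have n2 : f (f p) ≠ p := ne 2 (by norm_num) (by norm_num)
  have n3 : f (f p) ≠ f p := fun h => n2 (by rw [h] at e3; exact e3)
  have A0 : p ∈ sa f x := hA 0 (by norm_num)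
  have A1 : f p ∈ sa f x := hA 1 (by norm_num)
  have A2 : f (f p) ∈ sa f x := hA 2 (by norm_num)
  have M : ∀ a b c : unitInterval, f a = b → f b = c → f c = a → b ∈ sa f x →
      (a < b ∧ b < c) ∨ (c < b ∧ b < a) →
      ∃ w, (minimalPeriod f w = n ∨ minimalPeriod f w = 2 * n) ∧ ∀ i, f^[i] w ∈ sa f x := by
    rintro a b c ha hb hc hx (⟨h1, h2⟩ | ⟨h1, h2⟩)
    · exact main hf h1 h2 ha hb hc hx hn hn3
    · exact main (α := unitIntervalᵒᵈ) (f := f) (x := x) hf h2 h1 ha hb hc hx hn hn3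
  rcases lt_or_gt_of_ne n1 with h1 | h1 <;> rcases lt_or_gt_of_ne n2 with h2 | h2 <;>
    rcases lt_or_gt_of_ne n3 with h3 | h3
  · exact M p _ _ rfl rfl e3 A1 (.inr ⟨h3, h1⟩)
  · exact M (f p) _ _ rfl e3 rfl A2 (.inl ⟨h3, h2⟩)
  · exact absurd (h3.trans h1) (not_lt.2 h2.le)
  · exact M (f (f p)) p _ e3 rfl rfl A0 (.inr ⟨h1, h2⟩)
  · exact M (f (f p)) p _ e3 rfl rfl A0 (.inl ⟨h2, h1⟩)
  · exact absurd (h1.trans h3) (not_lt.2 h2.le)
  · exact M (f p) _ _ rfl e3 rfl A2 (.inr ⟨h2, h3⟩)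
  · exact M p _ _ rfl rfl e3 A1 (.inl ⟨h1, h3⟩)

end Pool.Agent.Results.MP_919dc2_an.Periods
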